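import Pool.Agent.W191.WA.Pert
import Pool.Agent.W792.WA.Stm3

/-!
# `S_PERT` with the constant `3`
-/

set_option autoImplicit false
set_option linter.unusedVariables false
set_option linter.unusedSectionVars false

namespace Pool.Agent.W63.WA.Pert3

open MeasureTheory Filter Pool.Agent.W792.LL Pool.Agent.W792.WA Pool.Agent.W191.WA
open scoped Topology ComplexConjugate

theorem main : S_SYMB → S_CSYM → S_PERT3 := by
  intro hS hC CB hCB
  refine ⟨1 / (1000 * CB ^ 2), by positivity, ?_⟩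
  intro ν _ d s U B δ J hδ hδ0 hν hU hs1 hs hB hUB hJ hJ2 hδ2
  have hCB2 : CB ≤ CB ^ 2 := by nlinarith
  have hCδ2 : CB ^ 2 * δ ≤ 1 / 1000 := by
    rw [le_div_iff₀ (by positivity)] at hδ0
    linarith
  have hCδ : CB * δ ≤ 1 / 1000 := (mul_le_mul_of_nonneg_right hCB2 hδ.le).trans hCδ2
  have hsm : 12 * (CB * δ) ≤ 1 := by linarith
  have hvr := vr_nonneg ν
  have hK : (184 * CB ^ 2 * δ ^ 2) ^ 2 ≤ vr ν * J / 4 := by
    have h1 : (δ ^ 2) ^ 2 ≤ (1 / (1000 * CB ^ 2) * Real.sqrt (vr ν * J)) ^ 2 :=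
      pow_le_pow_left₀ (by positivity) hδ2 2
    rw [mul_pow, Real.sq_sqrt (by positivity)] at h1
    have h2 : (184 * CB ^ 2 * δ ^ 2) ^ 2 = (184 * CB ^ 2) ^ 2 * (δ ^ 2) ^ 2 := by ring
    rw [h2]
    have h3 : (184 * CB ^ 2) ^ 2 * (δ ^ 2) ^ 2 ≤
        (184 * CB ^ 2) ^ 2 * ((1 / (1000 * CB ^ 2)) ^ 2 * (vr ν * J)) :=
      mul_le_mul_of_nonneg_left h1 (by positivity)
    refine h3.trans ?_
    have h4 : (184 * CB ^ 2) ^ 2 * ((1 / (1000 * CB ^ 2)) ^ 2 * (vr ν * J)) =
        (184 / 1000) ^ 2 * (vr ν * J) := by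
      have : CB ≠ 0 := by linarith
      field_simp
    rw [h4]
    have h5 : 0 ≤ vr ν * J := by positivity
    nlinarith
  set C := csym ν U with hCd
  set t1 : C(UnitAddTorus (Fin d), ℂ) := (1 + U * C) * (1 - U * s) with ht1
  set t2 : C(UnitAddTorus (Fin d), ℂ) := C * (1 - U * s) with ht2
  obtain ⟨f1, f2⟩ := first ν hS hC hCB hδ hsm hU hs hB hUB hν
  have hall : ∀ w : l2 (Fin d → ℤ), vr ν * J / 4 * ‖w‖ ^ 2 ≤ ‖opr t1 w‖ ^ 2 - ‖opr t2 w‖ ^ 2 := by
    intro w
    have hw : Tendsto (fun F : Finset (Fin d → ℤ) => ∑ y ∈ F, w y • (dl y : l2 (Fin d → ℤ)))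
        atTop (𝓝 w) := hasSum_dl w
    refine le_of_tendsto_of_tendsto' ((hw.norm.pow 2).const_mul (vr ν * J / 4))
      (((((opr t1).continuous.tendsto w).comp hw).norm.pow 2).sub
        ((((opr t2).continuous.tendsto w).comp hw).norm.pow 2)) fun F => ?_
    exact second ν hS hC hCB hδ hsm hU hs hB hUB hν hJ hJ2 hK F fun y => w y
  have hpos : ∀ k, 0 ≤ ‖t1 k‖ ^ 2 - ‖t2 k‖ ^ 2 - vr ν * J / 4 := by
    obtain ⟨h1, -, h3, -, -⟩ := hS d
    have h4 := (h3 (star t1 * t1 - star t2 * t2 - ((vr ν * J / 4 : ℝ) : ℂ) • 1)).1 (by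
      intro w
      rw [o_sub, o_sub, o_smul, o_one]
      simp only [sub_apply, smul_apply, one_apply_eq_self, inner_sub_right, inner_smul_right]
      rw [← h1, ← h1, Complex.sub_re, Complex.sub_re]
      have g1 : ∀ z : l2 (Fin d → ℤ), (inner ℂ z z : ℂ).re = ‖z‖ ^ 2 := fun z =>
        inner_self_eq_norm_sq (𝕜 := ℂ) z
      rw [Complex.re_ofReal_mul, g1, g1, g1]
      linarith [hall w])
    intro k
    have h5 := h4 k
    simp only [ContinuousMap.sub_apply, ContinuousMap.mul_apply, ContinuousMap.star_apply,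
      ContinuousMap.smul_apply, ContinuousMap.one_apply, smul_eq_mul, mul_one, Complex.sub_re,
      Complex.ofReal_re] at h5
    have g2 : ∀ z : ℂ, (star z * z).re = ‖z‖ ^ 2 := by
      intro z
      have : star z * z = ((‖z‖ ^ 2 : ℝ) : ℂ) := by
        rw [mul_comm]
        exact (Complex.mul_conj' z).trans (by push_cast; rfl)
      rw [this, Complex.ofReal_re]
    rw [g2, g2] at h5
    exact h5
  set tb : C(UnitAddTorus (Fin d), ℂ) := t2 - s * t1 with htb
  have f1k : ∀ k, ‖tb k‖ ≤ 12 * δ := fun k => (tb.norm_coe_le_norm k).trans f1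
  have f2k : ∀ k, ‖tb k - (cb ν - s k)‖ ≤ 72 * CB * δ ^ 2 := by
    intro k
    have h1 := ((tb - (cb ν • 1 - s)).norm_coe_le_norm k).trans f2
    simpa using h1
  have ht1k : ∀ k, t1 k = 1 + B k * tb k := by
    intro k
    simp only [htb, ht1, ht2, ContinuousMap.mul_apply, ContinuousMap.add_apply,
      ContinuousMap.sub_apply, ContinuousMap.one_apply]
    have h1 := hUB k
    have h2 : (1 - U k * s k) * B k = U k := by linear_combination -h1
    linear_combination (s k - C k + s k * U k * C k) * h2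
  have hBt : ∀ k, ‖B k * tb k‖ ≤ 1 / 2 := by
    intro k
    rw [norm_mul]
    have := mul_le_mul (hB k) (f1k k) (norm_nonneg _) (by linarith)
    linarith
  have hn1 : ∀ k, 1 / 2 ≤ ‖t1 k‖ := by
    intro k
    have h1 := norm_sub_norm_le (1 : ℂ) (-(B k * tb k))
    rw [norm_one, norm_neg, sub_neg_eq_add, ← ht1k] at h1
    linarith [hBt k]
  have hn2 : ∀ k, ‖t1 k‖ ≤ 2 := by
    intro k
    rw [ht1k]
    refine (norm_add_le _ _).trans ?_
    rw [norm_one]
    linarith [hBt k]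
  have hne : ∀ k, 1 + U k * C k ≠ 0 := by
    intro k h
    have h1 := hn1 k
    have h2 : t1 k = (1 + U k * C k) * (1 - U k * s k) := rfl
    rw [h2, h, zero_mul, norm_zero] at h1
    linarith
  have hcont : Continuous fun k => C k / (1 + U k * C k) := by
    apply Continuous.div C.continuous (by fun_prop) hne
  have hpsi : ∀ k, psi ν U k = C k / (1 + U k * C k) := by
    intro k
    unfold psi toC
    rw [dif_pos hcont]
    rfl
  have hpsi2 : ∀ k, psi ν U k = t2 k / t1 k := by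
    intro k
    rw [hpsi]
    have h1 : t1 k ≠ 0 := by
      intro h
      have := hn1 k
      rw [h, norm_zero] at this
      linarith
    rw [div_eq_div_iff (hne k) h1]
    have h2 : t1 k = (1 + U k * C k) * (1 - U k * s k) := rfl
    have h3 : t2 k = C k * (1 - U k * s k) := rfl
    rw [h2, h3]
    ring
  intro k
  have h1 : t1 k ≠ 0 := by
    intro h
    have := hn1 k
    rw [h, norm_zero] at this
    linarith
  constructor
  · have e : psi ν U k + 1 = (cb ν + 1) + (tb k - (cb ν - s k)) - B k * tb k ^ 2 / t1 k := by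
      rw [hpsi2]
      have h2 : tb k = t2 k - s k * t1 k := rfl
      have h3 : t2 k = tb k + s k * t1 k := by rw [h2]; ring
      rw [h3]
      field_simp
      have h4 := ht1k k
      linear_combination (-(tb k)) * h4
    rw [e]
    have g1 := cb_good ν hν
    have g2 := f2k k
    have g3 : ‖B k * tb k ^ 2 / t1 k‖ ≤ 288 * CB * δ ^ 2 := by
      rw [norm_div, div_le_iff₀ (by linarith [hn1 k]), norm_mul, norm_pow]
      have h2 : ‖tb k‖ ^ 2 ≤ (12 * δ) ^ 2 := pow_le_pow_left₀ (norm_nonneg _) (f1k k) 2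
      have h3 : ‖B k‖ * ‖tb k‖ ^ 2 ≤ CB * (12 * δ) ^ 2 :=
        mul_le_mul (hB k) h2 (by positivity) (by linarith)
      have h4 : 288 * CB * δ ^ 2 * (1 / 2) ≤ 288 * CB * δ ^ 2 * ‖t1 k‖ :=
        mul_le_mul_of_nonneg_left (hn1 k) (by positivity)
      nlinarith
    have h5 : 360 * CB * δ ^ 2 ≤ 1 * δ := by
      have : 360 * CB * δ ^ 2 = 360 * (CB * δ) * δ := by ring
      rw [this]
      exact mul_le_mul_of_nonneg_right (by linarith) hδ.le
    calc ‖cb ν + 1 + (tb k - (cb ν - s k)) - B k * tb k ^ 2 / t1 k‖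
        ≤ ‖cb ν + 1‖ + ‖tb k - (cb ν - s k)‖ + ‖B k * tb k ^ 2 / t1 k‖ :=
          (norm_sub_le _ _).trans (add_le_add (norm_add_le _ _) le_rfl)
      _ ≤ 3 * δ := by linarith
  · rw [hpsi2, norm_div, div_pow, div_le_iff₀ (by have := hn1 k; positivity)]
    have h2 := hpos k
    have h3 : ‖t1 k‖ ^ 2 ≤ 4 := by
      have := pow_le_pow_left₀ (norm_nonneg _) (hn2 k) 2
      linarith
    have h4 : 0 ≤ vr ν * J := by positivity
    nlinarith

end Pool.Agent.W63.WA.Pert3
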